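import Pool.Agent.H14.GKK2

set_option autoImplicit false

namespace Pool.Agent.Results.MP_40f31b_al.OrderFive

open Matrix Finset Pool.Agent.H14.GKK

theorem result : ∃ B : Matrix (Fin 5) (Fin 5) ℝ,
    (∀ (k : ℕ) (f : Fin k → Fin 5), StrictMono f → 0 < (B.submatrix f f).det) ∧
    (∀ (k : ℕ) (f g : Fin k → Fin 5), StrictMono f → StrictMono g →
      k ≤ (image f univ ∩ image g univ).card + 1 →
      0 ≤ (B.submatrix f g).det * (B.submatrix g f).det) ∧
    ∃ z ∈ spectrum ℂ (B.map Complex.ofReal), z.re ≤ 0 := by
  have e : ∀ {k : ℕ} (f g : Fin k → Fin 5),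
      ((M.map (Int.cast : ℤ → ℝ)).submatrix f g).det = ((M.submatrix f g).det : ℤ) := by
    intro k f g
    rw [Int.cast_det]; rfl
  refine ⟨M.map Int.cast, fun k f hf => ?_, fun k f g hf hg h => ?_, ?_⟩
  · rw [e]
    exact_mod_cast (c0 k (le5 hf) f (mem_sms f hf)).1
  · rw [e, e]
    rcases h.eq_or_lt with h | h
    · exact_mod_cast (c2 k (le5 hf) f (mem_sms f hf) g (mem_sms g hg) h.symm).le
    · have h1 : (image f univ).card = k := by
        rw [card_image_of_injective _ hf.injective]; simp
      have h2 : (image g univ).card = k := by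
        rw [card_image_of_injective _ hg.injective]; simp
      have h3 := eq_of_subset_of_card_le (inter_subset_left (s₁ := image f univ) (s₂ := image g univ))
        (by omega)
      have h4 := eq_of_subset_of_card_le (inter_subset_right (s₁ := image f univ) (s₂ := image g univ))
        (by omega)
      have h5 : f = g := by
        refine (hf.range_inj hg).1 ?_
        have := congrArg (fun s : Finset (Fin 5) => (s : Set (Fin 5))) (h3.symm.trans h4)
        simpa using this
      rw [h5]
      exact mul_self_nonneg _
  · have : (M.map (Int.cast : ℤ → ℝ)).map Complex.ofReal = A := by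
      ext i j; simp [A]
    rw [this]
    exact unstable

end Pool.Agent.Results.MP_40f31b_al.OrderFive
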